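import Mathlib
import Pool.Agent.H759R2.Kad.Props5

open scoped ComplexOrder InnerProductSpace ComplexConjugate
open Finset

noncomputable section

namespace H759R2.Kad

universe u v

theorem prove5_range : F_range.{u} := by
  intro H _ _ _ M b hb
  set K : Submodule ℂ H := (LinearMap.range (b : H →ₗ[ℂ] H)).topologicalClosure with hK
  have : CompleteSpace K := (Submodule.isClosed_topologicalClosure _).completeSpace_coe
  have hmemK : ∀ x, b x ∈ K := fun x => Submodule.le_topologicalClosure _ ⟨x, rfl⟩
  have hpK : ∀ v ∈ K, K.starProjection v = v :=
    fun v hv => Submodule.starProjection_eq_self_iff.2 hv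
  have hp : IsStarProjection K.starProjection := isStarProjection_starProjection
  refine ⟨K.starProjection, ?_, ⟨hp.isSelfAdjoint, hp.isIdempotentElem⟩, ?_, ?_⟩
  · rw [VonNeumannAlgebra.IsStarProjection.mem_iff hp]
    intro y hy
    have hr : (K.starProjection).range = K := Submodule.range_starProjection K
    rw [hr, Module.End.mem_invtSubmodule]
    have hcomm : ∀ x, y (b x) = b (y x) := by
      intro x
      have := VonNeumannAlgebra.mem_commutant_iff.1 hy b hb
      have h2 := congrArg (fun f : H →L[ℂ] H => f x) this
      simpa using h2.symm
    refine Submodule.topologicalClosure_minimal _ ?_ ?_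
    · rintro _ ⟨x, rfl⟩
      show y (b x) ∈ K
      rw [hcomm]
      exact hmemK _
    · exact (Submodule.isClosed_topologicalClosure _).preimage y.continuous
  · ext x
    exact hpK _ (hmemK x)
  · intro x hx
    ext h
    have hker : K ≤ LinearMap.ker (x : H →ₗ[ℂ] H) := by
      refine Submodule.topologicalClosure_minimal _ ?_ ?_
      · rintro _ ⟨z, rfl⟩
        have h2 := congrArg (fun f : H →L[ℂ] H => f z) hx
        simpa using h2
      · exact isClosed_singleton.preimage x.continuous
    have h1 : K.starProjection h ∈ K := Submodule.starProjection_apply_mem K h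
    have h2 := hker h1
    simpa using h2

end H759R2.Kad
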